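import Pool.Agent.Q83.GaborRep

/-!
# A universal ordering for operator representations of Gabor frames

The class of triples whose Gabor frame has, in some ordering, a bounded representation consists
exactly of the triples giving Riesz bases, and for those every ordering has a bounded
representation. Hence every bijection from the index set to the lattice is universal.
-/

set_option autoImplicit false
open MeasureTheory

namespace Pool.Agent.Results.MP_5c6457_an.Universal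

open Pool.Agent.Results.MP_6c6e33_an.GaborOrbit Q83.GaborRep

/-- The class `𝒞_I`: the triples `(g, a, b)` with `a, b > 0` whose Gabor system is a frame of which
some ordering indexed by `I` has a bounded representation. -/
def InClass (I : Type) [Add I] [One I] (g : L2) (a b : ℝ) : Prop :=
  0 < a ∧ 0 < b ∧ ∃ f : ℤ × ℤ → L2, IsGaborSystem a b g f ∧ IsFrame f ∧
    ∃ σ : I ≃ ℤ × ℤ, BoundedRep (fun k => f (σ k))

/-- The bijection `σ` is universal: for every triple in the class `𝒞_I` the ordering given by `σ`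
has a bounded representation, with an injective operator. -/
def IsUniversal (I : Type) [Add I] [One I] (σ : I ≃ ℤ × ℤ) : Prop :=
  ∀ (g : L2) (a b : ℝ), InClass I g a b → ∀ f : ℤ × ℤ → L2, IsGaborSystem a b g f →
    BoundedInjRep (fun k => f (σ k))

lemma gabor_unique {a b : ℝ} {g : L2} {f f' : ℤ × ℤ → L2} (h : IsGaborSystem a b g f)
    (h' : IsGaborSystem a b g f') : f = f' := by
  funext ⟨m, n⟩
  exact Lp.ext ((h m n).trans (h' m n).symm)

theorem result :
    ((∃ σ : ℕ ≃ ℤ × ℤ, IsUniversal ℕ σ) ∧ ∀ σ : ℕ ≃ ℤ × ℤ, IsUniversal ℕ σ) ∧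
    ((∃ σ : ℤ ≃ ℤ × ℤ, IsUniversal ℤ σ) ∧ ∀ σ : ℤ ≃ ℤ × ℤ, IsUniversal ℤ σ) := by
  have h1 : ∀ σ : ℕ ≃ ℤ × ℤ, IsUniversal ℕ σ := by
    rintro σ g a b ⟨ha, hb, f, hf, hfr, τ, hτ⟩ f' hf'
    rw [gabor_unique hf' hf]
    refine riesz_rep (add_left_injective 1) f ?_ σ
    by_contra hR
    exact (Pool.Agent.Results.MP_6c6e33_an.GaborOrbit.result a b ha hb g f hf ⟨hfr, hR⟩).1 ⟨τ, hτ.orbit⟩
  have h2 : ∀ σ : ℤ ≃ ℤ × ℤ, IsUniversal ℤ σ := by
    rintro σ g a b ⟨ha, hb, f, hf, hfr, τ, hτ⟩ f' hf'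
    rw [gabor_unique hf' hf]
    refine riesz_rep (add_left_injective 1) f ?_ σ
    by_contra hR
    exact (Pool.Agent.Results.MP_6c6e33_an.GaborOrbit.result a b ha hb g f hf ⟨hfr, hR⟩).2 ⟨τ, hτ.orbit⟩
  refine ⟨⟨?_, h1⟩, ⟨?_, h2⟩⟩
  · obtain ⟨σ⟩ := nonempty_equiv_of_countable (α := ℕ) (β := ℤ × ℤ)
    exact ⟨σ, h1 σ⟩
  · obtain ⟨σ⟩ := nonempty_equiv_of_countable (α := ℤ) (β := ℤ × ℤ)
    exact ⟨σ, h2 σ⟩

end Pool.Agent.Results.MP_5c6457_an.Universal
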